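import Pool.Agent.H50.ODG.Targets

/-!
# Two-orbit polyhedra with odd vertex degrees: a structure for the parameters
-/

set_option autoImplicit false

namespace Pool.Agent.H41.ODG

open Pool.Agent.H57.CP Pool.Agent.H39.TO Pool.Agent.H39.OD Pool.Agent.H50.ODG

theorem pf_PAS (hGEL : T_GEL) (hMDQ : T_MDQ) (hFMB : T_FMB) (hEXA : T_EXA) (hVSA : T_VSA) :
    T_PAS := by
  intro u v w α β h
  obtain ⟨hu0, hu1, hv0, hv1, _, _, hL⟩ := hGEL u v w α β h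
  obtain ⟨hCf, _, _, _, _, hIn⟩ := hMDQ u v w α β hu0 hu1 hv0 hv1 h.a0 h.a1 h.b0 h.b1 hL
  have hfam : Fam0 u v w ∨ Fam1 u v w ∨ Fam2 u v w := by
    rcases h.fam with h0 | ⟨h1, _⟩ | ⟨h2, _⟩
    · exact Or.inl h0
    · exact Or.inr (Or.inl h1)
    · exact Or.inr (Or.inr h2)
  have hcu : cn u ≠ 0 := (hFMB u v w hfam).2.2.2.2.2.1
  have hXV : XV o (x1 u v w α β) (na u α) (nb u v w α β) m1 := by
    apply hEXA u v w _ _ _ _ _ hCf
    rcases h.fam with h0 | ⟨h1, hne⟩ | ⟨h2, hne, _⟩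
    · exact Or.inl h0
    · exact Or.inr (Or.inl ⟨h1, fun hI => hne (hIn.mp hI)⟩)
    · exact Or.inr (Or.inr ⟨h2, fun hI => hne (hIn.mp hI)⟩)
  exact hVSA u v w _ _ _ _ _ hCf hcu hXV

end Pool.Agent.H41.ODG
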