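import Pool.Agent.H50.ODG.Targets

/-!
# Two-orbit polyhedra with odd vertex degrees: existence for the families with one condition
-/

set_option autoImplicit false

namespace Pool.Agent.H41.ODG

open Pool.Agent.H57.CP Pool.Agent.H39.TO Pool.Agent.H39.OD Pool.Agent.H50.ODG

theorem cn_two_thirds : cn (2 / 3) = -1 / 2 := by
  have h : ((2 / 3 : ℚ) : ℝ) * Real.pi = Real.pi - Real.pi / 3 := by
    push_cast
    ring
  rw [cn, h, Real.cos_pi_sub, Real.cos_pi_div_three]
  norm_num

theorem cn_one_div (p : ℕ) : cn (1 / p) = Real.cos (Real.pi / p) := by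
  rw [cn]
  congr 1
  push_cast
  ring

/-- the common part -/
theorem xf2_core (hSTM : T_STM) (hXST : T_XST) (hXC2 : T_XC2) (k p : ℕ) (w : ℚ) (x x' : H3)
    (n0 n1 n2 : V4) (hp : 7 ≤ p) (hk : 2 ≤ k) (hk7 : k ≤ 4) (hkp : Nat.Coprime k p)
    (hI : ¬ InS x x' n0 n1 n2) (hC : Cf (k / p) (1 / p) w x x' n0 n1 n2)
    (hE : Real.sin (Real.pi / p) * cn w -
      Real.sin (((k : ℝ) - 1) * Real.pi / p) * Real.cos (Real.pi / p) =
      Real.sin (k * Real.pi / p) * (-1 / 2)) : XV x x' n0 n1 n2 := by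
  obtain ⟨m, hm⟩ := hSTM k p (1 / p) w x x' n0 n1 n2 hk (by omega) hkp hC
  have hp0 : (0 : ℝ) < p := by
    have : 0 < p := by omega
    exact_mod_cast this
  have hsin : 0 < Real.sin (k * Real.pi / p) := by
    apply Real.sin_pos_of_pos_of_lt_pi
    · have hk0 : (0 : ℝ) < k := by
        have : 0 < k := by omega
        exact_mod_cast this
      positivity
    · rw [div_lt_iff₀ hp0]
      have hkp' : (k : ℝ) < p := by
        have : k < p := by omega
        exact_mod_cast this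
      have := Real.pi_pos
      nlinarith
  have hmn : mk m n1 = -1 / 2 := by
    have h1 := hm.eq
    rw [cn_one_div, hE] at h1
    exact mul_left_cancel₀ hsin.ne' h1
  have hC' : Cf (1 / p) (1 / p) (2 / (3 : ℕ)) x x' m n1 n2 := by
    refine ⟨hm.um, hC.u1, hC.u2, ?_, hC.e12, ?_, hm.xm, hC.xc, hC.yb, hC.yc, hC.xb, hm.ym⟩
    · rw [cn_one_div]
      exact hm.em
    · rw [hmn]
      have : ((2 : ℚ) / ((3 : ℕ) : ℚ)) = 2 / 3 := by norm_num
      rw [this, cn_two_thirds]
  have hI' : ¬ InS x x' m n1 n2 := fun h => hI (hm.is.mpr h)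
  exact hXST k p (1 / p) w x x' n0 n1 n2 m hC hm (hXC2 p 3 x x' m n1 n2 (by omega) (le_refl 3) hC' hI')

theorem pf_XF2 (hSTM : T_STM) (hXST : T_XST) (hXC2 : T_XC2) : T_XF2 := by
  intro p hodd hp x x' n0 n1 n2 hI
  have hp0 : (0 : ℝ) < p := by
    have : 0 < p := by omega
    exact_mod_cast this
  have h2p : Nat.Coprime 2 p := Nat.coprime_two_left.mpr hodd
  set θ : ℝ := Real.pi / p with hθ
  refine ⟨fun hC => ?_, fun hC => ?_, fun h3 hC => ?_⟩
  · refine xf2_core hSTM hXST hXC2 2 p (1 / 2) x x' n0 n1 n2 hp (le_refl 2) (by norm_num) h2p hI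
      (by exact_mod_cast hC) ?_
    have h1 : cn (1 / 2) = 0 := by
      have h : ((1 / 2 : ℚ) : ℝ) * Real.pi = Real.pi / 2 := by
        push_cast
        ring
      rw [cn, h, Real.cos_pi_div_two]
    have h2 : (((2 : ℕ) : ℝ) - 1) * Real.pi / p = θ := by
      rw [hθ]
      push_cast
      ring
    have h3 : ((2 : ℕ) : ℝ) * Real.pi / p = 2 * θ := by
      rw [hθ]
      push_cast
      ring
    rw [h1, h2, h3, ← hθ, Real.sin_two_mul]
    ring
  · have h4p : Nat.Coprime 4 p := by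
      have : Nat.Coprime (2 ^ 2) p := Nat.Coprime.pow_left 2 h2p
      exact this
    refine xf2_core hSTM hXST hXC2 4 p (1 / p) x x' n0 n1 n2 hp (by norm_num) (le_refl 4) h4p hI
      (by exact_mod_cast hC) ?_
    have h2 : (((4 : ℕ) : ℝ) - 1) * Real.pi / p = 3 * θ := by
      rw [hθ]
      push_cast
      ring
    have h3 : ((4 : ℕ) : ℝ) * Real.pi / p = 2 * (2 * θ) := by
      rw [hθ]
      push_cast
      ring
    rw [cn_one_div, h2, h3, ← hθ, Real.sin_two_mul, Real.sin_three_mul, Real.sin_two_mul,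
      Real.cos_two_mul]
    have h5 := Real.sin_sq_add_cos_sq θ
    have h6 : Real.cos θ ^ 2 = 1 - Real.sin θ ^ 2 := by linarith
    linear_combination (4 * Real.sin θ * Real.cos θ) * h6
  · have h3p : Nat.Coprime 3 p := (Nat.Prime.coprime_iff_not_dvd Nat.prime_three).mpr h3
    refine xf2_core hSTM hXST hXC2 3 p (1 / 3) x x' n0 n1 n2 hp (by norm_num) (by norm_num) h3p hI
      (by exact_mod_cast hC) ?_
    have h1 : cn (1 / 3) = 1 / 2 := by
      have h : ((1 / 3 : ℚ) : ℝ) * Real.pi = Real.pi / 3 := by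
        push_cast
        ring
      rw [cn, h, Real.cos_pi_div_three]
    have h2 : (((3 : ℕ) : ℝ) - 1) * Real.pi / p = 2 * θ := by
      rw [hθ]
      push_cast
      ring
    have h4 : ((3 : ℕ) : ℝ) * Real.pi / p = 3 * θ := by
      rw [hθ]
      push_cast
      ring
    rw [h1, h2, h4, ← hθ, Real.sin_two_mul, Real.sin_three_mul]
    have h5 := Real.sin_sq_add_cos_sq θ
    have h6 : Real.cos θ ^ 2 = 1 - Real.sin θ ^ 2 := by linarith
    linear_combination (-2 * Real.sin θ) * h6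

end Pool.Agent.H41.ODG
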