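import Pool.Agent.H50.ODG.Targets

/-!
# Two-orbit polyhedra with odd vertex degrees: existence for the family of triples of equal angles
-/

set_option autoImplicit false

namespace Pool.Agent.H41.ODG

open Pool.Agent.H57.CP Pool.Agent.H39.TO Pool.Agent.H39.OD Pool.Agent.H50.ODG

theorem pf_XF3 (hSTM : T_STM) (hXST : T_XST) (hXF2 : T_XF2) (hXVS : T_XVS) (hCFI : T_CFI) : T_XF3 := by
  intro p hodd hp x x' n0 n1 n2 hI hC0
  have hp0 : (0 : ℝ) < p := by
    have : 0 < p := by omega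
    exact_mod_cast this
  have h2p : Nat.Coprime 2 p := Nat.coprime_two_left.mpr hodd
  have hC : Cf ((2 : ℕ) / p) (2 / p) (2 / p) x x' n0 n1 n2 := by exact_mod_cast hC0
  obtain ⟨m, hm⟩ := hSTM 2 p (2 / p) (2 / p) x x' n0 n1 n2 (le_refl 2) (by omega) h2p hC
  have hsin : 0 < Real.sin ((2 : ℕ) * Real.pi / p) := by
    apply Real.sin_pos_of_pos_of_lt_pi
    · have := Real.pi_pos
      positivity
    · rw [div_lt_iff₀ hp0]
      have hp7 : (7 : ℝ) ≤ p := by exact_mod_cast hp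
      have := Real.pi_pos
      push_cast
      nlinarith
  have hmn : mk m n1 = 0 := by
    have h1 := hm.eq
    have h2 : (((2 : ℕ) : ℝ) - 1) * Real.pi / p = Real.pi / p := by
      push_cast
      ring
    rw [h2, sub_self] at h1
    exact (mul_eq_zero.mp h1).resolve_left hsin.ne'
  have hC' : Cf (1 / p) (2 / p) (1 / 2) x x' m n1 n2 := by
    refine ⟨hm.um, hC.u1, hC.u2, ?_, hC.e12, ?_, hm.xm, hC.xc, hC.yb, hC.yc, hC.xb, hm.ym⟩
    · rw [hm.em, cn]
      congr 1
      push_cast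
      ring
    · have h : ((1 / 2 : ℚ) : ℝ) * Real.pi = Real.pi / 2 := by
        push_cast
        ring
      rw [hmn, cn, h, Real.cos_pi_div_two]
  obtain ⟨_, _, hC2, hI2, _⟩ := hCFI _ _ _ _ _ _ _ _ hC'
  have hI' : ¬ InS x' x n1 m n2 := fun h => hI (hm.is.mpr (hI2.mpr h))
  have hX := (hXF2 p hodd hp x' x n1 m n2 hI').1 hC2
  exact hXST 2 p (2 / p) (2 / p) x x' n0 n1 n2 m hC hm ((hXVS _ _ _ _ _ _ _ _ hC').mpr hX)

end Pool.Agent.H41.ODG
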