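import Pool.Agent.H50.ODG.Targets

/-!
# Two-orbit polyhedra with odd vertex degrees: exchange of the base points
-/

set_option autoImplicit false

namespace Pool.Agent.H41.ODG

open Pool.Agent.H57.CP Pool.Agent.H39.TO Pool.Agent.H39.OD Pool.Agent.H50.ODG

theorem lor_one : Lor (1 : Module.End ℝ V4) := ⟨fun _ _ => rfl, fun x => x.2.2⟩

theorem lor_mul {g h : Module.End ℝ V4} (hg : Lor g) (hh : Lor h) : Lor (g * h) := by
  refine ⟨fun x y => ?_, fun x => ?_⟩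
  · rw [Module.End.mul_apply, Module.End.mul_apply, hg.1, hh.1]
  · rw [Module.End.mul_apply]
    have h1 : mk (h x.1) (h x.1) = 1 := by
      rw [hh.1]
      exact x.2.1
    exact hg.2 ⟨h x.1, h1, hh.2 x⟩

theorem gam_inv_lor (hLOR : T_LOR) (n0 n1 n2 : V4) (h0 : mk n0 n0 = -1) (h1 : mk n1 n1 = -1)
    (h2 : mk n2 n2 = -1) : ∀ g ∈ Gam n0 n1 n2, ∃ h ∈ Gam n0 n1 n2, h * g = 1 ∧ g * h = 1 ∧ Lor g ∧ Lor h := by
  intro g hg
  unfold Gam at hg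
  induction hg using Submonoid.closure_induction with
  | mem x hx =>
    have hmem : x ∈ Gam n0 n1 n2 := Submonoid.subset_closure hx
    simp only [Set.mem_insert_iff, Set.mem_singleton_iff] at hx
    rcases hx with rfl | rfl | rfl
    · exact ⟨_, hmem, (hLOR.2.2 n0 h0).2, (hLOR.2.2 n0 h0).2, (hLOR.2.2 n0 h0).1, (hLOR.2.2 n0 h0).1⟩
    · exact ⟨_, hmem, (hLOR.2.2 n1 h1).2, (hLOR.2.2 n1 h1).2, (hLOR.2.2 n1 h1).1, (hLOR.2.2 n1 h1).1⟩
    · exact ⟨_, hmem, (hLOR.2.2 n2 h2).2, (hLOR.2.2 n2 h2).2, (hLOR.2.2 n2 h2).1, (hLOR.2.2 n2 h2).1⟩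
  | one => exact ⟨1, Submonoid.one_mem _, one_mul 1, one_mul 1, lor_one, lor_one⟩
  | mul a b _ _ iha ihb =>
    obtain ⟨a', ha', ha1, ha2, ha3, ha4⟩ := iha
    obtain ⟨b', hb', hb1, hb2, hb3, hb4⟩ := ihb
    refine ⟨b' * a', Submonoid.mul_mem _ hb' ha', ?_, ?_, lor_mul ha3 hb3, lor_mul hb4 ha4⟩
    · rw [mul_assoc, ← mul_assoc a' a b, ha1, one_mul, hb1]
    · rw [mul_assoc, ← mul_assoc b b' a', hb2, one_mul, ha2]

theorem gam_comm (n0 n1 n2 : V4) : Gam n1 n0 n2 = Gam n0 n1 n2 := by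
  unfold Gam
  rw [Set.insert_comm]

theorem pf_XVS (hVSR : T_VSR) (hLOR : T_LOR) : T_XVS := by
  intro u v w x x' n0 n1 n2 hC
  constructor
  · intro h
    have := hVSR.2.1 _ _ _ x x' (gam_inv_lor hLOR n0 n1 n2 hC.u0 hC.u1 hC.u2) h
    unfold XV
    rw [gam_comm]
    exact this
  · intro h
    have := hVSR.2.1 _ _ _ x' x (gam_inv_lor hLOR n1 n0 n2 hC.u1 hC.u0 hC.u2) h
    unfold XV
    rw [gam_comm n1 n0 n2]
    exact this

end Pool.Agent.H41.ODG
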